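import Pool.Agent.Lib.MP_226ef1_lc.U.IfaceM
import Pool.Agent.Lib.MP_8d6ead_lc.RuleSys

/-!
# Module MACH: uniformly computable rule systems for the halting problem
-/

set_option autoImplicit false

namespace Pool.Agent.Lib.MP_226ef1_lc.U.H99

open Relation Turing PartrecToTM2
open Pool.Agent.Lib.MP_8d6ead_lc (Op Stk psh Step Reach stk0 exists_rules_nat)

/-- number of a stack -/
def kn : K' → ℕ
  | .main => 0
  | .rev => 1
  | .aux => 2
  | .stack => 3

/-- index of a stack -/
def ki : K' → Fin 4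
  | .main => 0
  | .rev => 1
  | .aux => 2
  | .stack => 3

/-- stack with a given index -/
def kOf (i : Fin 4) : K' :=
  if i = 0 then .main else if i = 1 then .rev else if i = 2 then .aux else .stack

/-- number of a symbol -/
def sn : Γ' → ℕ
  | .consₗ => 0
  | .cons => 1
  | .bit0 => 2
  | .bit1 => 3

theorem kOf_ki (k : K') : kOf (ki k) = k := by cases k <;> rfl

theorem ki_kOf (i : Fin 4) : ki (kOf i) = i := by
  fin_cases i <;> rfl

theorem sn_inj {a b : Γ'} (h : sn a = sn b) : a = b := by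
  cases a <;> cases b <;> simp_all [sn]

theorem kn_inj {a b : K'} (h : kn a = kn b) : a = b := by
  cases a <;> cases b <;> simp_all [kn]

theorem sn_lt (a : Γ') : sn a < 4 := by cases a <;> simp [sn]

theorem kn_lt (k : K') : kn k < 4 := by cases k <;> simp [kn]

theorem opS_eq (x : ℕ) (k : K') : opS (4 * x + kn k) = ki k := by
  apply Fin.ext
  have h : (ki k).1 = kn k := by cases k <;> rfl
  show (4 * x + kn k) % 4 = (ki k).1
  rw [h]
  have := kn_lt k
  omega

/-- encoding of stack contents -/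
def enc (T : Stk) : Stks := fun i => (T (kOf i)).map sn

theorem enc_ki (T : Stk) (k : K') : enc T (ki k) = (T k).map sn := by
  simp [enc, kOf_ki]

theorem enc_psh (k : K') (a : Γ') (T : Stk) :
    enc (psh k a T) = Function.update (enc T) (ki k) (sn a :: enc T (ki k)) := by
  funext i
  by_cases h : i = ki k
  · subst h
    rw [Function.update_self, enc_ki, enc_ki]
    simp [psh]
  · rw [Function.update_of_ne h]
    have h2 : kOf i ≠ k := by
      intro h3
      apply h
      rw [← h3, ki_kOf]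
    simp [enc, psh, Function.update_of_ne h2]

/-- the operations -/
def pushN (k : K') (a : Γ') : ℕ := 4 * (2 + sn a) + kn k
/-- the operations -/
def popN (k : K') (a : Γ') : ℕ := 4 * (6 + sn a) + kn k
/-- the operations -/
def emptyN (k : K') : ℕ := 4 * 1 + kn k

theorem opRel_zero {S S' : Stks} : OpRel 0 S S' ↔ S' = S := by
  unfold OpRel
  simp

theorem opRel_push {k : K'} {a : Γ'} {T : Stk} {S' : Stks} :
    OpRel (pushN k a) (enc T) S' ↔ S' = enc (psh k a T) := by
  have h1 := sn_lt a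
  have h2 := kn_lt k
  have hd : pushN k a / 4 = 2 + sn a := by unfold pushN; omega
  have hs : opS (pushN k a) = ki k := opS_eq _ _
  unfold OpRel
  rw [hd, hs, enc_psh]
  constructor
  · rintro (⟨h, _⟩ | ⟨h, _⟩ | ⟨_, _, h⟩ | ⟨h, _⟩)
    · omega
    · omega
    · rw [h, show 2 + sn a - 2 = sn a by omega]
    · omega
  · intro h
    right; right; left
    refine ⟨by omega, by omega, ?_⟩
    rw [h, show 2 + sn a - 2 = sn a by omega]

theorem opRel_empty {k : K'} {T : Stk} {S' : Stks} :
    OpRel (emptyN k) (enc T) S' ↔ T k = [] ∧ S' = enc T := by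
  have h2 := kn_lt k
  have hd : emptyN k / 4 = 1 := by unfold emptyN; omega
  have hs : opS (emptyN k) = ki k := opS_eq _ _
  unfold OpRel
  rw [hd, hs, enc_ki]
  constructor
  · rintro (⟨h, _⟩ | ⟨_, h, h'⟩ | ⟨h, _⟩ | ⟨h, _⟩)
    · omega
    · exact ⟨by simpa using h, h'⟩
    · omega
    · omega
  · rintro ⟨h, h'⟩
    right; left
    exact ⟨rfl, by simp [h], h'⟩

theorem opRel_pop {k : K'} {a : Γ'} {T : Stk} {S' : Stks} :
    OpRel (popN k a) (enc T) S' ↔ ∃ T', T = psh k a T' ∧ S' = enc T' := by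
  have h1 := sn_lt a
  have h2 := kn_lt k
  have hd : popN k a / 4 = 6 + sn a := by unfold popN; omega
  have hs : opS (popN k a) = ki k := opS_eq _ _
  unfold OpRel
  rw [hd, hs]
  constructor
  · rintro (⟨h, _⟩ | ⟨h, _⟩ | ⟨_, h, _⟩ | ⟨_, _, h⟩)
    · omega
    · omega
    · omega
    · rw [show 6 + sn a - 6 = sn a by omega] at h
      have h3 : (T k).map sn = sn a :: S' (ki k) := by
        rw [← enc_ki, h, Function.update_self]
      obtain ⟨b, l, hT, hb, hl⟩ := List.map_eq_cons_iff.1 h3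
      have hb' := sn_inj hb
      subst hb'
      refine ⟨Function.update T k l, ?_, ?_⟩
      · funext j
        by_cases hj : j = k
        · subst hj
          simp [psh, hT]
        · simp [psh, Function.update_of_ne hj]
      · funext i
        by_cases hi : i = ki k
        · subst hi
          rw [enc_ki, Function.update_self, hl]
        · have h4 : kOf i ≠ k := by
            intro h5
            apply hi
            rw [← h5, ki_kOf]
          have h5 := congrFun h i
          rw [Function.update_of_ne hi] at h5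
          simp only [enc, Function.update_of_ne h4]
          exact h5.symm
  · rintro ⟨T', rfl, rfl⟩
    right; right; right
    refine ⟨by omega, by omega, ?_⟩
    rw [show 6 + sn a - 6 = sn a by omega, enc_psh]

/-- middle state for the simulation of `peek` -/
def mid (q : ℕ) (k : K') (a : Γ') : ℕ := 4 * Nat.pair q (Nat.pair (kn k) (sn a)) + 3

theorem mid_inj {q q' : ℕ} {k k' : K'} {a a' : Γ'} (h : mid q k a = mid q' k' a') :
    q = q' ∧ k = k' ∧ a = a' := by
  unfold mid at h
  have h1 : Nat.pair q (Nat.pair (kn k) (sn a)) = Nat.pair q' (Nat.pair (kn k') (sn a')) := by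
    omega
  obtain ⟨h2, h3⟩ := Nat.pair_eq_pair.1 h1
  obtain ⟨h4, h5⟩ := Nat.pair_eq_pair.1 h3
  exact ⟨h2, kn_inj h4, sn_inj h5⟩

/-- translation of a rule -/
def trR : ℕ × Op × ℕ → List (ℕ × ℕ × ℕ)
  | (q, .push k a, q') => [(4 * q + 1, pushN k a, 4 * q' + 1)]
  | (q, .pop k a, q') => [(4 * q + 1, popN k a, 4 * q' + 1)]
  | (q, .peek k a, q') =>
      [(4 * q + 1, popN k a, mid q' k a), (mid q' k a, pushN k a, 4 * q' + 1)]
  | (q, .empty k, q') => [(4 * q + 1, emptyN k, 4 * q' + 1)]
  | (q, .nop, q') => [(4 * q + 1, 0, 4 * q' + 1)]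

/-- input rules -/
def inp (q₀ n : ℕ) : List (ℕ × ℕ × ℕ) :=
  (0, 12, 2) :: ((List.range n).map (fun v =>
    (2 * ((v + 1) / 2 + 1), 4 * (4 + (v + 1) % 2), 2 * (v + 2))) ++ [(2 * (n + 1), 0, 4 * q₀ + 1)])

/-- all rules -/
def allR (R : List (ℕ × Op × ℕ)) (q₀ qh n : ℕ) : List (ℕ × ℕ × ℕ) :=
  (4 * qh + 1, 0, 4 * qh + 1) :: (R.flatMap trR ++ inp q₀ n)

theorem primrec_allR (R : List (ℕ × Op × ℕ)) (q₀ qh : ℕ) : Primrec (allR R q₀ qh) := by
  unfold allR inp
  refine Primrec.list_cons.comp (Primrec.const _) (Primrec.list_append.comp (Primrec.const _)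
    (Primrec.list_cons.comp (Primrec.const _) (Primrec.list_append.comp
      (Primrec.list_map Primrec.list_range ?_)
      (Primrec.list_cons.comp ?_ (Primrec.const [])))))
  · have hv : Primrec (fun p : ℕ × ℕ => p.2 + 1) := Primrec.succ.comp Primrec.snd
    refine Primrec.pair ?_ (Primrec.pair ?_ ?_)
    · exact Primrec.nat_mul.comp (Primrec.const 2)
        (Primrec.succ.comp (Primrec.nat_div.comp hv (Primrec.const 2)))
    · exact Primrec.nat_mul.comp (Primrec.const 4)
        (Primrec.nat_add.comp (Primrec.const 4) (Primrec.nat_mod.comp hv (Primrec.const 2)))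
    · exact Primrec.nat_mul.comp (Primrec.const 2)
        (Primrec.nat_add.comp Primrec.snd (Primrec.const 2))
  · refine Primrec.pair ?_ (Primrec.pair (Primrec.const _) (Primrec.const _))
    exact Primrec.nat_mul.comp (Primrec.const 2) Primrec.succ

/-- digits -/
theorem trNat_succ (v : ℕ) : trNat (v + 1) =
    (if (v + 1) % 2 = 0 then Γ'.bit0 else Γ'.bit1) :: trNat ((v + 1) / 2) := by
  have key : ∀ (b : Bool) (m : ℕ), (m ≠ 0 ∨ b = true) →
      trNat (Nat.bit b m) = (if b = true then Γ'.bit1 else Γ'.bit0) :: trNat m := by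
    intro b m hm
    unfold trNat
    rw [← Num.ofNat'_eq, ← Num.ofNat'_eq, Num.ofNat'_bit]
    rcases h : Num.ofNat' m with _ | p
    · rcases hm with hm | hm
      · exfalso
        apply hm
        have h2 : ((Num.ofNat' m : Num) : ℕ) = 0 := by rw [h]; rfl
        rw [Num.ofNat'_eq, Num.to_of_nat] at h2
        exact h2
      · subst hm
        rfl
    · cases b <;> rfl
  rcases Nat.even_or_odd' (v + 1) with ⟨m, hm | hm⟩
  · have h1 := key false m (Or.inl (by omega))
    have h2 : Nat.bit false m = v + 1 := by simp [Nat.bit_val]; omega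
    rw [h2] at h1
    have h3 : trNat (v + 1) = Γ'.bit0 :: trNat m := by simpa using h1
    rw [h3, if_pos (show (v + 1) % 2 = 0 by omega), show (v + 1) / 2 = m by omega]
  · have h1 := key true m (Or.inr rfl)
    have h2 : Nat.bit true m = v + 1 := by simp [Nat.bit_val]; omega
    rw [h2] at h1
    have h3 : trNat (v + 1) = Γ'.bit1 :: trNat m := by simpa using h1
    rw [h3, if_neg (show ¬ (v + 1) % 2 = 0 by omega), show (v + 1) / 2 = m by omega]

/-- the input on the main stack -/
def inT (v : ℕ) : Stk := stk0 (trList [v])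

theorem inT_zero : inT 0 = psh .main .cons (stk0 []) := by
  funext k
  cases k <;> simp [inT, stk0, psh, K'.elim, Function.update]

theorem inT_succ (v : ℕ) : inT (v + 1) =
    psh .main (if (v + 1) % 2 = 0 then Γ'.bit0 else Γ'.bit1) (inT ((v + 1) / 2)) := by
  funext k
  cases k <;> simp [inT, stk0, psh, K'.elim, Function.update, trNat_succ]

theorem enc_nil : enc (stk0 []) = fun _ => [] := by
  funext i
  fin_cases i <;> simp [enc, stk0, kOf, K'.elim]

theorem push_bit (v : ℕ) : 4 * (4 + (v + 1) % 2) =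
    pushN .main (if (v + 1) % 2 = 0 then Γ'.bit0 else Γ'.bit1) := by
  by_cases h : (v + 1) % 2 = 0
  · rw [if_pos h, h]
    rfl
  · rw [if_neg h, show (v + 1) % 2 = 1 by omega]
    rfl

/-- invariant -/
def Good (R : List (ℕ × Op × ℕ)) (q₀ n : ℕ) (c : ℕ × Stks) : Prop :=
  (c.1 = 0 ∧ c.2 = fun _ => []) ∨
  (∃ v, v ≤ n ∧ c.1 = 2 * (v + 1) ∧ c.2 = enc (inT v)) ∨
  (∃ q T, c.1 = 4 * q + 1 ∧ c.2 = enc T ∧ Reach R (q₀, inT n) (q, T)) ∨
  (∃ q k a T, c.1 = mid q k a ∧ c.2 = enc T ∧ Reach R (q₀, inT n) (q, psh k a T))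

theorem good_step {R : List (ℕ × Op × ℕ)} {q₀ qh n : ℕ} {c c' : ℕ × Stks}
    (hc : Good R q₀ n c) (h : MStep (allR R q₀ qh n) c c') : Good R q₀ n c' := by
  obtain ⟨r, hr, h1, h2, h3⟩ := h
  obtain ⟨s, S⟩ := c
  obtain ⟨s', S'⟩ := c'
  simp only at h1 h2 h3
  -- extraction lemmas
  have odd : ∀ q, s = 4 * q + 1 → ∃ T, S = enc T ∧ Reach R (q₀, inT n) (q, T) := by
    intro q hq
    rcases hc with ⟨h, _⟩ | ⟨v, _, h, _⟩ | ⟨q', T, h, hT, hr⟩ | ⟨q', k, a, T, h, hT, hr⟩
    · simp only at h; omega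
    · simp only at h; omega
    · simp only at h hT
      have : q' = q := by omega
      subst this
      exact ⟨T, hT, hr⟩
    · simp only [mid] at h; omega
  rcases List.mem_cons.1 hr with hr | hr
  · subst hr
    simp only at h1 h2 h3
    rw [opRel_zero] at h3
    subst h3
    obtain ⟨T, hT, hR⟩ := odd qh h1.symm
    exact Or.inr (Or.inr (Or.inl ⟨qh, T, h2.symm, hT, hR⟩))
  rcases List.mem_append.1 hr with hr | hr
  · obtain ⟨⟨q, op, q'⟩, hmem, hr⟩ := List.mem_flatMap.1 hr
    have hstep : ∀ T T', op.Rel T T' → Reach R (q₀, inT n) (q, T) →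
        Reach R (q₀, inT n) (q', T') := fun T T' hop hR =>
      ReflTransGen.tail hR ⟨(q, op, q'), hmem, rfl, rfl, hop⟩
    cases op with
    | push k a =>
      simp only [trR, List.mem_singleton] at hr
      subst hr
      simp only at h1 h2 h3
      obtain ⟨T, hT, hR⟩ := odd q h1.symm
      rw [hT, opRel_push] at h3
      exact Or.inr (Or.inr (Or.inl ⟨q', _, h2.symm, h3, hstep T _ rfl hR⟩))
    | pop k a =>
      simp only [trR, List.mem_singleton] at hr
      subst hr
      simp only at h1 h2 h3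
      obtain ⟨T, hT, hR⟩ := odd q h1.symm
      rw [hT, opRel_pop] at h3
      obtain ⟨T', hTT, hS'⟩ := h3
      exact Or.inr (Or.inr (Or.inl ⟨q', T', h2.symm, hS', hstep T T' hTT hR⟩))
    | peek k a =>
      simp only [trR, List.mem_cons, List.not_mem_nil, or_false] at hr
      rcases hr with rfl | rfl
      · simp only at h1 h2 h3
        obtain ⟨T, hT, hR⟩ := odd q h1.symm
        rw [hT, opRel_pop] at h3
        obtain ⟨T', hTT, hS'⟩ := h3
        refine Or.inr (Or.inr (Or.inr ⟨q', k, a, T', h2.symm, hS', ?_⟩))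
        rw [← hTT]
        exact hstep T T ⟨⟨T', hTT⟩, rfl⟩ hR
      · simp only at h1 h2 h3
        rcases hc with ⟨h, _⟩ | ⟨v, _, h, _⟩ | ⟨q2, T, h, hT, hR⟩ | ⟨q2, k2, a2, T, h, hT, hR⟩
        · simp only [← h1, mid] at h; omega
        · simp only [← h1, mid] at h; omega
        · simp only [← h1, mid] at h; omega
        · simp only at h hT
          rw [← h1] at h
          obtain ⟨rfl, rfl, rfl⟩ := mid_inj h
          rw [hT, opRel_push] at h3
          exact Or.inr (Or.inr (Or.inl ⟨q', _, h2.symm, h3, hR⟩))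
    | empty k =>
      simp only [trR, List.mem_singleton] at hr
      subst hr
      simp only at h1 h2 h3
      obtain ⟨T, hT, hR⟩ := odd q h1.symm
      rw [hT, opRel_empty] at h3
      exact Or.inr (Or.inr (Or.inl ⟨q', T, h2.symm, h3.2, hstep T T ⟨h3.1, rfl⟩ hR⟩))
    | nop =>
      simp only [trR, List.mem_singleton] at hr
      subst hr
      simp only at h1 h2 h3
      obtain ⟨T, hT, hR⟩ := odd q h1.symm
      rw [hT, opRel_zero] at h3
      exact Or.inr (Or.inr (Or.inl ⟨q', T, h2.symm, h3, hstep T T rfl hR⟩))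
  · unfold inp at hr
    have even : ∀ w, s = 2 * (w + 1) → w ≤ n ∧ S = enc (inT w) := by
      intro w hw
      rcases hc with ⟨h, _⟩ | ⟨v, hv, h, hT⟩ | ⟨q', T, h, hT, hr⟩ | ⟨q', k, a, T, h, hT, hr⟩
      · simp only at h; omega
      · simp only at h hT
        have : v = w := by omega
        subst this
        exact ⟨hv, hT⟩
      · simp only at h; omega
      · simp only [mid] at h; omega
    rcases List.mem_cons.1 hr with hr | hr
    · subst hr
      simp only at h1 h2 h3
      rcases hc with ⟨h, hS⟩ | ⟨v, _, h, _⟩ | ⟨q2, T, h, hT, hR⟩ | ⟨q2, k2, a2, T, h, hT, hR⟩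
      · simp only at hS
        have h12 : (12 : ℕ) = pushN .main .cons := rfl
        rw [hS, ← enc_nil, h12, opRel_push, ← inT_zero] at h3
        exact Or.inr (Or.inl ⟨0, Nat.zero_le n, h2.symm, h3⟩)
      · simp only at h; omega
      · simp only at h; omega
      · simp only [mid] at h; omega
    rcases List.mem_append.1 hr with hr | hr
    · obtain ⟨v, hv, rfl⟩ := List.mem_map.1 hr
      rw [List.mem_range] at hv
      simp only at h1 h2 h3
      obtain ⟨_, hS⟩ := even ((v + 1) / 2) h1.symm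
      rw [hS, push_bit, opRel_push, ← inT_succ] at h3
      exact Or.inr (Or.inl ⟨v + 1, hv, h2.symm, h3⟩)
    · rw [List.mem_singleton] at hr
      subst hr
      simp only at h1 h2 h3
      obtain ⟨_, hS⟩ := even n h1.symm
      rw [opRel_zero] at h3
      subst h3
      exact Or.inr (Or.inr (Or.inl ⟨q₀, inT n, h2.symm, hS, ReflTransGen.refl⟩))

theorem good_reach {R : List (ℕ × Op × ℕ)} {q₀ qh n : ℕ} {c : ℕ × Stks}
    (h : ReflTransGen (MStep (allR R q₀ qh n)) (0, fun _ => []) c) : Good R q₀ n c := by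
  induction h with
  | refl => exact Or.inl ⟨rfl, rfl⟩
  | tail _ h ih => exact good_step ih h

theorem sim_step {R : List (ℕ × Op × ℕ)} {q₀ qh n : ℕ} {q q' : ℕ} {T T' : Stk}
    (h : Step R (q, T) (q', T')) :
    ReflTransGen (MStep (allR R q₀ qh n)) (4 * q + 1, enc T) (4 * q' + 1, enc T') := by
  obtain ⟨⟨p, op, p'⟩, hmem, h1, h2, h3⟩ := h
  simp only at h1 h2 h3
  subst h1 h2
  have hin : ∀ r, r ∈ trR (p, op, p') → r ∈ allR R q₀ qh n := fun r hr =>
    List.mem_cons_of_mem _ (List.mem_append_left _ (List.mem_flatMap.2 ⟨_, hmem, hr⟩))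
  cases op with
  | push k a =>
    exact ReflTransGen.single ⟨(4 * p + 1, pushN k a, 4 * p' + 1), hin _ (by simp [trR]), rfl, rfl,
      opRel_push.2 (congrArg enc h3)⟩
  | pop k a =>
    exact ReflTransGen.single ⟨(4 * p + 1, popN k a, 4 * p' + 1), hin _ (by simp [trR]), rfl, rfl,
      opRel_pop.2 ⟨T', h3, rfl⟩⟩
  | peek k a =>
    obtain ⟨⟨S₀, hS⟩, h4⟩ := h3
    refine ReflTransGen.tail (b := (mid p' k a, enc S₀)) (ReflTransGen.single
      ⟨(4 * p + 1, popN k a, mid p' k a), hin _ (by simp [trR]), rfl, rfl,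
        opRel_pop.2 ⟨S₀, hS, rfl⟩⟩)
      ⟨(mid p' k a, pushN k a, 4 * p' + 1), hin _ (by simp [trR]), rfl, rfl,
        opRel_push.2 (by rw [h4, hS])⟩
  | empty k =>
    obtain ⟨h4, h5⟩ := h3
    exact ReflTransGen.single ⟨(4 * p + 1, emptyN k, 4 * p' + 1), hin _ (by simp [trR]), rfl, rfl,
      opRel_empty.2 ⟨h4, congrArg enc h5⟩⟩
  | nop =>
    have h4 : T' = T := h3
    exact ReflTransGen.single ⟨(4 * p + 1, 0, 4 * p' + 1), hin _ (by simp [trR]), rfl, rfl,
      opRel_zero.2 (congrArg enc h4)⟩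

theorem sim {R : List (ℕ × Op × ℕ)} {q₀ qh n : ℕ} {T : Stk} {y : ℕ × Stk}
    (h : Reach R (q₀, T) y) :
    ReflTransGen (MStep (allR R q₀ qh n)) (4 * q₀ + 1, enc T) (4 * y.1 + 1, enc y.2) := by
  induction h with
  | refl => exact ReflTransGen.refl
  | tail _ h ih => exact ih.trans (sim_step h)

theorem input {R : List (ℕ × Op × ℕ)} {q₀ qh n : ℕ} : ∀ v, v ≤ n →
    ReflTransGen (MStep (allR R q₀ qh n)) (0, fun _ => []) (2 * (v + 1), enc (inT v)) := by
  have hin : ∀ r, r ∈ inp q₀ n → r ∈ allR R q₀ qh n := fun r hr =>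
    List.mem_cons_of_mem _ (List.mem_append_right _ hr)
  intro v
  induction v using Nat.strong_induction_on with
  | _ v ih =>
    intro hv
    rcases v with _ | v
    · refine ReflTransGen.single ⟨(0, 12, 2), hin _ (by simp [inp]), rfl, rfl, ?_⟩
      show OpRel 12 (fun _ => []) (enc (inT 0))
      have h12 : (12 : ℕ) = pushN .main .cons := rfl
      rw [← enc_nil, h12, opRel_push, ← inT_zero]
    · refine ReflTransGen.tail (ih ((v + 1) / 2) (by omega) (by omega))
        ⟨(2 * ((v + 1) / 2 + 1), 4 * (4 + (v + 1) % 2), 2 * (v + 2)), hin _ ?_, rfl, rfl, ?_⟩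
      · unfold inp
        refine List.mem_cons_of_mem _ (List.mem_append_left _ (List.mem_map.2 ⟨v, ?_, rfl⟩))
        rw [List.mem_range]
        omega
      · show OpRel _ (enc (inT ((v + 1) / 2))) (enc (inT (v + 1)))
        rw [push_bit, opRel_push, ← inT_succ]

theorem diag_partrec : Partrec diag :=
  Nat.Partrec.Code.eval_part.comp (Computable.ofNat Nat.Partrec.Code) (Computable.const 0)

/-- module MACH -/
theorem mach : MachStatement := by
  obtain ⟨R, q₀, qh, hR⟩ := exists_rules_nat diag diag_partrec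
  refine ⟨allR R q₀ qh, 0, 4 * qh + 1, primrec_allR R q₀ qh, fun n => by simp [allR], fun n => ?_⟩
  rw [hR n]
  constructor
  · rintro ⟨T, hT⟩
    refine ⟨enc T, ?_⟩
    have h1 := input (R := R) (q₀ := q₀) (qh := qh) n le_rfl
    have h2 : MStep (allR R q₀ qh n) (2 * (n + 1), enc (inT n)) (4 * q₀ + 1, enc (inT n)) := by
      refine ⟨(2 * (n + 1), 0, 4 * q₀ + 1), ?_, rfl, rfl, opRel_zero.2 rfl⟩
      unfold allR inp
      simp
    exact (ReflTransGen.tail h1 h2).trans (sim hT)
  · rintro ⟨S, hS⟩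
    rcases good_reach hS with ⟨h, _⟩ | ⟨v, _, h, _⟩ | ⟨q, T, h, hT, hr⟩ | ⟨q, k, a, T, h, _, _⟩
    · simp only at h; omega
    · simp only at h; omega
    · simp only at h
      have : q = qh := by omega
      subst this
      exact ⟨T, hr⟩
    · simp only [mid] at h; omega

end Pool.Agent.Lib.MP_226ef1_lc.U.H99
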