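import Pool.Agent.Lib.MP_226ef1_lc.U.IfaceM
import Pool.Agent.Lib.MP_226ef1_lc.U.Tools

/-!
# Module OBS: the Obstruction Lemma
-/

set_option autoImplicit false

namespace Pool.Agent.Lib.MP_226ef1_lc.U.H99

universe u

/-- the words of `nfw` are bad in all templates with odd colours -/
theorem bad_of_nfw {J : TS} {τ : Tm} (h : InFam' J τ) {w : List ℕ} (hl : w.length = J.L)
    (hs : w.sum % 2 = 0) (hf : ¬ ∀ c ∈ τ.seeds, c ∈ w) : τ.bad w := by
  rcases h with rfl | rfl | ⟨r, _, _, rfl⟩ | ⟨r, _, _, rfl⟩ | ⟨r, k, _, _, rfl⟩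
  · exact Or.inl ⟨hl, hs, hf⟩
  · exact Or.inl ⟨hl, hs, hf⟩
  · exact Or.inl ⟨hl, hs, hf⟩
  · exact Or.inl ⟨hl, hs, hf⟩
  · exact ⟨hl, hs, hf⟩

/-- the colours of `Free(g)` are even -/
theorem even_of_FR {J : TS} {g c : ℕ} (h : (FR J g).cols c) : c % 2 = 0 := by
  rcases h with ⟨i, hi, _⟩ | ⟨i, _, rfl⟩ | ⟨k, hk, _⟩ | ⟨i, _, rfl⟩
  · omega
  · unfold kk; omega
  · exact hk.elim
  · unfold oo; omega

/-- module OBS -/
theorem obs (hF : FamWfStatement) : ObsStatement.{u} := by
  intro J hJ T _ hLoc hE G hR Y hY hcard hxm V hV hVl hVp hVe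
  obtain ⟨x, hxY, hxm⟩ := hxm
  have hYG : Y ⊆ G := hY.2.1
  set e := ee J.L G with he
  have hu0 : dbl J.L Y ≠ [] := by
    intro h0
    have := hE.dbl_len Y hY.1
    rw [h0] at this
    simp at this
  obtain ⟨τ, hτ, σ, hσ, hsep⟩ := hLoc Y hcard (dbl J.L Y) hu0
    (fun t ht => (hE.dbl_mem Y t).1 ht)
  obtain ⟨hWF, hlen, _⟩ := hF J hJ τ hτ
  have hpu : prd (dbl J.L Y) = e := hY.2.2
  have hsep' : ∀ v : List T, v ≠ [] → (∀ g ∈ v, g ∈ Y) →
      τ.nf (v.flatMap σ) = τ.nf ((dbl J.L Y).flatMap σ) → prd v = e := by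
    intro v hv hvY h
    have := hsep v hv hvY h
    simp only [List.map_id'] at this
    rw [this, hpu]
  have hul : J.L < ((dbl J.L Y).flatMap σ).length :=
    lt_of_lt_of_le (hE.dbl_len Y hY.1) (length_le_flatMap fun a _ => hσ a)
  have huF : ¬ τ.Free ((dbl J.L Y).flatMap σ) := Tm.not_free_of_len (by rw [hlen]; exact hul)
  have husum : ((dbl J.L Y).flatMap σ).sum % 2 = 0 := sum_flatMap_even σ (hE.dbl_cnt Y)
  -- (i)
  have h0 : 0 ∉ (dbl J.L Y).flatMap σ := by
    intro h0
    have h1 : prd (dbl J.L Y ++ [x]) = e := by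
      apply hsep' _ (by simp)
      · intro g hg
        rcases List.mem_append.1 hg with hg | hg
        · exact (hE.dbl_mem Y g).1 hg
        · rw [List.mem_singleton] at hg
          rw [hg]; exact hxY
      · rw [Tm.nf_zero h0, Tm.nf_zero]
        rw [List.flatMap_append]
        exact List.mem_append_left _ h0
    rw [prd_append, hpu, prd_singleton] at h1
    exact hxm h1
  have h0Y : ∀ y ∈ Y, 0 ∉ σ y := fun y hy h =>
    h0 (List.mem_flatMap.2 ⟨y, (hE.dbl_mem Y y).2 hy, h⟩)
  have h0v : ∀ v : List T, (∀ g ∈ v, g ∈ Y) → 0 ∉ v.flatMap σ := by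
    intro v hv h
    obtain ⟨g, hg, h⟩ := List.mem_flatMap.1 h
    exact h0Y g (hv g hg) h
  -- general criterion
  have key : ∀ v : List T, v ≠ [] → (∀ g ∈ v, g ∈ Y) → ¬ τ.Free (v.flatMap σ) →
      (∀ c ∈ τ.seeds, (c ∈ v.flatMap σ ↔ c ∈ (dbl J.L Y).flatMap σ)) →
      (v.flatMap σ).sum % 2 = 0 → prd v = e := by
    intro v hv hvY hvF hs hp
    apply hsep' v hv hvY
    exact Tm.nf_eq_of_long (h0v v hvY) h0 hvF huF hs (by rw [hp, husum])
  -- adding letters of even total parity at the end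
  have add : ∀ w : List T, (∀ g ∈ w, g ∈ Y) → (w.flatMap σ).sum % 2 = 0 → e * prd w = e := by
    intro w hw hws
    have h1 : prd (dbl J.L Y ++ w) = e := by
      apply key
      · simp [hu0]
      · intro g hg
        rcases List.mem_append.1 hg with hg | hg
        · exact (hE.dbl_mem Y g).1 hg
        · exact hw g hg
      · apply Tm.not_free_of_len
        rw [hlen, List.flatMap_append, List.length_append]
        omega
      · intro c _
        rw [List.flatMap_append, List.mem_append]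
        constructor
        · rintro (h | h)
          · exact h
          · obtain ⟨g, hg, h⟩ := List.mem_flatMap.1 h
            exact List.mem_flatMap.2 ⟨g, (hE.dbl_mem Y g).2 (hw g hg), h⟩
        · exact Or.inl
      · rw [List.flatMap_append, List.sum_append]
        omega
    rw [prd_append, hpu] at h1
    exact h1
  -- (ii)
  have hev : ∀ y ∈ Y, (σ y).sum % 2 = 0 → ¬ mn J.L G y := by
    intro y hy h hm
    have := add [y] (by simpa using hy) (by simpa using h)
    rw [prd_singleton] at this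
    exact hm this
  have hxo : (σ x).sum % 2 = 1 := by
    by_contra h
    exact hev x hxY (by omega) hxm
  have hmain : ∀ y ∈ Y, (mn J.L G y ↔ (σ y).sum % 2 = 1) := by
    intro y hy
    constructor
    · intro hm
      by_contra h
      exact hev y hy (by omega) hm
    · intro h
      by_contra hm
      have h1 := add [x, y] (by simp [hxY, hy]) (by simp; omega)
      have h2 := hR.odd [x, y] (by simp [hYG hxY, hYG hy])
        (by rw [par_cons_pos hxm, par_singleton_neg hm])
      exact h2 h1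
  -- (iii)
  have hV0 : V ≠ [] := by
    intro h
    have := (hV x).2 hxY
    rw [h] at this
    simp at this
  have hVY : ∀ g ∈ V, g ∈ Y := fun g hg => (hV g).1 hg
  have hVs : (V.flatMap σ).sum % 2 = 0 := by
    rw [sum_flatMap_mod, ← hVp]
    exact par_congr fun a ha => (hmain a (hVY a ha)).symm
  have hVF : τ.Free (V.flatMap σ) := by
    by_contra hcon
    apply hVe
    apply key V hV0 hVY hcon _ hVs
    intro c _
    constructor
    · intro h
      obtain ⟨g, hg, h⟩ := List.mem_flatMap.1 h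
      exact List.mem_flatMap.2 ⟨g, (hE.dbl_mem Y g).2 (hVY g hg), h⟩
    · intro h
      obtain ⟨g, hg, h⟩ := List.mem_flatMap.1 h
      exact List.mem_flatMap.2 ⟨g, (hV g).2 ((hE.dbl_mem Y g).1 hg), h⟩
  have hσ1 : ∀ y ∈ Y, (σ y).length = 1 := by
    intro y hy
    by_contra h
    have h1 : 0 < (σ y).length := List.length_pos_iff.2 (hσ y)
    have h2 := length_lt_flatMap (σ := σ) (w := V) (fun a _ => hσ a) ((hV y).2 hy) (by omega)
    have h3 := hVF.2.1
    rw [hlen] at h3
    omega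
  let c : T → ℕ := fun y => (σ y).headD 0
  have hc : ∀ y ∈ Y, σ y = [c y] := by
    intro y hy
    obtain ⟨a, ha⟩ := List.length_eq_one_iff.1 (hσ1 y hy)
    simp only [c, ha, List.headD_cons]
  have hcv : ∀ v : List T, (∀ g ∈ v, g ∈ Y) → v.flatMap σ = v.map c := fun v hv =>
    flatMap_eq_map fun a ha => hc a (hv a ha)
  have hcol : ∀ y ∈ Y, τ.cols (c y) := by
    intro y hy
    apply hVF.2.2.1
    rw [hcv V hVY]
    exact List.mem_map.2 ⟨y, (hV y).2 hy, rfl⟩
  have hpar : ∀ y ∈ Y, (mn J.L G y ↔ c y % 2 = 1) := by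
    intro y hy
    rw [hmain y hy, hc y hy]
    simp
  have hτ' : InFam' J τ := by
    rcases hτ with h | ⟨g, _, _, rfl⟩
    · exact h
    · exfalso
      have h1 := even_of_FR (hcol x hxY)
      have h2 := (hpar x hxY).1 hxm
      omega
  -- (iv)
  have hfull : ∀ s ∈ τ.seeds, s ∈ V.map c := by
    by_contra hcon
    have hb : τ.bad (V.map c) := by
      apply bad_of_nfw hτ' _ _ hcon
      · rw [List.length_map, hVl]
      · rw [← hcv V hVY]
        exact hVs
    rw [hcv V hVY] at hVF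
    exact hVF.2.2.2 _ List.infix_rfl hb
  have hfullY : ∀ s ∈ τ.seeds, s ∈ (dbl J.L Y).flatMap σ := by
    intro s hs
    obtain ⟨y, hy, hys⟩ := List.mem_map.1 (hfull s hs)
    refine List.mem_flatMap.2 ⟨y, (hE.dbl_mem Y y).2 (hVY y hy), ?_⟩
    rw [hc y (hVY y hy), List.mem_singleton, hys]
  refine ⟨τ, hτ', c, ⟨fun y hy => ⟨hcol y hy, hpar y hy⟩, ?_, ?_⟩, ?_⟩
  · intro s hs
    obtain ⟨y, hy, hys⟩ := List.mem_map.1 (hfull s hs)
    exact ⟨y, hVY y hy, hys⟩
  · intro Y' hY' hs
    have hne : Y'.Nonempty := by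
      obtain ⟨s, hs'⟩ := List.exists_mem_of_ne_nil _ hWF.seeds_ne
      obtain ⟨y, hy, _⟩ := hs s hs'
      exact ⟨y, hy⟩
    refine ⟨hne, hY'.trans hYG, ?_⟩
    have hmem : ∀ g ∈ dbl J.L Y', g ∈ Y := fun g hg => hY' ((hE.dbl_mem Y' g).1 hg)
    have h1 : prd (dbl J.L Y') = e := by
      apply key
      · intro h0
        have := hE.dbl_len Y' hne
        rw [h0] at this
        simp at this
      · exact hmem
      · apply Tm.not_free_of_len
        rw [hlen]
        exact lt_of_lt_of_le (hE.dbl_len Y' hne) (length_le_flatMap fun a _ => hσ a)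
      · intro s hs'
        refine ⟨fun _ => hfullY s hs', fun _ => ?_⟩
        obtain ⟨y, hy, hys⟩ := hs s hs'
        refine List.mem_flatMap.2 ⟨y, (hE.dbl_mem Y' y).2 hy, ?_⟩
        rw [hc y (hY' hy), List.mem_singleton, hys]
      · exact sum_flatMap_even σ (hE.dbl_cnt Y')
    exact h1
  · rintro v ⟨hvY, hvb, hvs⟩
    have hv0 : v ≠ [] := by
      intro h
      have := hWF.bad_ge _ hvb
      rw [h] at this
      simp at this
    apply key v hv0 hvY
    · rw [hcv v hvY]
      exact Tm.not_free_of_bad List.infix_rfl hvb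
    · intro s hs
      refine ⟨fun _ => hfullY s hs, fun _ => ?_⟩
      rw [hcv v hvY]
      exact hvs s hs
    · rw [hcv v hvY]
      exact hWF.bad_even _ hvb

end Pool.Agent.Lib.MP_226ef1_lc.U.H99
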